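import Pool.Agent.Helper73.RF.GoalsF

/-!
# Project RF, packet VEQ: pointwise estimates in the last stage
-/

set_option autoImplicit false

open Finset Pool.Agent.Helper47.RF Pool.Agent.Helper73.RF

namespace Pool.Agent.Helper12.RF

theorem zp_deriv (T τ p t : ℝ) (hτ : 0 < τ) (ht : t < T) :
    HasDerivAt (fun r => (2 * (T - r) / τ) ^ p) (-(p * ((2 * (T - t) / τ) ^ p / (T - t)))) t := by
  have hT : 0 < T - t := by linarith
  have hz : 0 < 2 * (T - t) / τ := by positivity
  have h1 : HasDerivAt (fun r => 2 * (T - r) / τ) (-(2 / τ)) t := by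
    have := (((hasDerivAt_id t).const_sub T).const_mul 2).div_const τ
    exact this.congr_deriv (by ring)
  have h2 := h1.rpow_const (p := p) (Or.inl hz.ne')
  refine h2.congr_deriv ?_
  rw [Real.rpow_sub_one hz.ne']
  field_simp

/-- upper growth -/
theorem grow (T τ p C : ℝ) (hτ : 0 < τ) (hp : 0 < p) (hC : 0 ≤ C) (hz : 2 * (T - τ) ≤ τ)
    (f f' : ℝ → ℝ) (hf0 : ∀ t, τ ≤ t → t < T → 0 ≤ f t)
    (hf : ∀ t, τ ≤ t → t < T → HasDerivWithinAt f (f' t) (Set.Ico 0 T) t)
    (hle : ∀ t, τ ≤ t → t < T → f' t ≤ C * ((2 * (T - t) / τ) ^ p / (T - t)) * f t) :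
    ∀ t, τ ≤ t → t < T → f t ≤ Real.exp (C / p) * f τ := by
  intro t h1 h2
  have hder : ∀ r, τ ≤ r → r < T → HasDerivWithinAt
      (fun r => f r * Real.exp (C / p * (2 * (T - r) / τ) ^ p))
      ((f' r - C * ((2 * (T - r) / τ) ^ p / (T - r)) * f r)
        * Real.exp (C / p * (2 * (T - r) / τ) ^ p)) (Set.Ico 0 T) r := by
    intro r hr1 hr2
    have h := (hf r hr1 hr2).mul
      (((zp_deriv T τ p r hτ hr2).const_mul (C / p)).exp.hasDerivWithinAt (s := Set.Ico 0 T))
    refine h.congr_deriv ?_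
    field_simp
    ring
  have hanti : AntitoneOn (fun r => f r * Real.exp (C / p * (2 * (T - r) / τ) ^ p))
      (Set.Icc τ t) := by
    apply antitoneOn_of_deriv_nonpos (convex_Icc τ t)
    · intro r hr
      exact ((hder r hr.1 (lt_of_le_of_lt hr.2 h2)).continuousWithinAt).mono
        (fun y hy => ⟨hτ.le.trans hy.1, lt_of_le_of_lt hy.2 h2⟩)
    · intro r hr
      rw [interior_Icc] at hr
      have h := (hder r hr.1.le (hr.2.trans h2)).hasDerivAt
        (Ico_mem_nhds (hτ.trans hr.1) (hr.2.trans h2))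
      exact h.differentiableAt.differentiableWithinAt
    · intro r hr
      rw [interior_Icc] at hr
      have h := (hder r hr.1.le (hr.2.trans h2)).hasDerivAt
        (Ico_mem_nhds (hτ.trans hr.1) (hr.2.trans h2))
      rw [h.deriv]
      apply mul_nonpos_of_nonpos_of_nonneg _ (Real.exp_pos _).le
      linarith [hle r hr.1.le (hr.2.trans h2)]
  have h3 := hanti (Set.left_mem_Icc.2 h1) (Set.right_mem_Icc.2 h1) h1
  have hpos : 0 ≤ C / p * (2 * (T - t) / τ) ^ p := by
    have : 0 ≤ 2 * (T - t) / τ := by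
      have : 0 < T - t := by linarith
      positivity
    have := Real.rpow_nonneg this p
    positivity
  have h4 : f t ≤ f t * Real.exp (C / p * (2 * (T - t) / τ) ^ p) :=
    le_mul_of_one_le_right (hf0 t h1 h2) (Real.one_le_exp hpos)
  have h5 : f τ * Real.exp (C / p * (2 * (T - τ) / τ) ^ p) ≤ f τ * Real.exp (C / p) := by
    apply mul_le_mul_of_nonneg_left _ (hf0 τ le_rfl (lt_of_le_of_lt h1 h2))
    apply Real.exp_le_exp.2
    have h6 : (2 * (T - τ) / τ) ^ p ≤ 1 := by
      apply Real.rpow_le_one _ _ hp.le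
      · have : 0 < T - τ := by linarith
        positivity
      · rw [div_le_one hτ]
        exact hz
    calc C / p * (2 * (T - τ) / τ) ^ p ≤ C / p * 1 :=
          mul_le_mul_of_nonneg_left h6 (div_nonneg hC hp.le)
      _ = C / p := mul_one _
  calc f t ≤ _ := h4
    _ ≤ _ := h3
    _ ≤ _ := h5
    _ = _ := mul_comm _ _

/-- lower growth -/
theorem shrink (T τ p C : ℝ) (hτ : 0 < τ) (hp : 0 < p) (hC : 0 ≤ C) (hz : 2 * (T - τ) ≤ τ)
    (f f' : ℝ → ℝ) (hf0 : ∀ t, τ ≤ t → t < T → 0 ≤ f t)
    (hf : ∀ t, τ ≤ t → t < T → HasDerivWithinAt f (f' t) (Set.Ico 0 T) t)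
    (hge : ∀ t, τ ≤ t → t < T → -(C * ((2 * (T - t) / τ) ^ p / (T - t)) * f t) ≤ f' t) :
    ∀ t, τ ≤ t → t < T → Real.exp (-(C / p)) * f τ ≤ f t := by
  intro t h1 h2
  have hder : ∀ r, τ ≤ r → r < T → HasDerivWithinAt
      (fun r => f r * Real.exp (-(C / p) * (2 * (T - r) / τ) ^ p))
      ((f' r + C * ((2 * (T - r) / τ) ^ p / (T - r)) * f r)
        * Real.exp (-(C / p) * (2 * (T - r) / τ) ^ p)) (Set.Ico 0 T) r := by
    intro r hr1 hr2
    have h := (hf r hr1 hr2).mul
      (((zp_deriv T τ p r hτ hr2).const_mul (-(C / p))).exp.hasDerivWithinAt (s := Set.Ico 0 T))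
    refine h.congr_deriv ?_
    field_simp
    try ring
  have hmono : MonotoneOn (fun r => f r * Real.exp (-(C / p) * (2 * (T - r) / τ) ^ p))
      (Set.Icc τ t) := by
    apply monotoneOn_of_deriv_nonneg (convex_Icc τ t)
    · intro r hr
      exact ((hder r hr.1 (lt_of_le_of_lt hr.2 h2)).continuousWithinAt).mono
        (fun y hy => ⟨hτ.le.trans hy.1, lt_of_le_of_lt hy.2 h2⟩)
    · intro r hr
      rw [interior_Icc] at hr
      have h := (hder r hr.1.le (hr.2.trans h2)).hasDerivAt
        (Ico_mem_nhds (hτ.trans hr.1) (hr.2.trans h2))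
      exact h.differentiableAt.differentiableWithinAt
    · intro r hr
      rw [interior_Icc] at hr
      have h := (hder r hr.1.le (hr.2.trans h2)).hasDerivAt
        (Ico_mem_nhds (hτ.trans hr.1) (hr.2.trans h2))
      rw [h.deriv]
      apply mul_nonneg _ (Real.exp_pos _).le
      linarith [hge r hr.1.le (hr.2.trans h2)]
  have h3 := hmono (Set.left_mem_Icc.2 h1) (Set.right_mem_Icc.2 h1) h1
  have hpos : 0 ≤ C / p * (2 * (T - t) / τ) ^ p := by
    have : 0 ≤ 2 * (T - t) / τ := by
      have : 0 < T - t := by linarith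
      positivity
    have := Real.rpow_nonneg this p
    positivity
  have h4 : f t * Real.exp (-(C / p) * (2 * (T - t) / τ) ^ p) ≤ f t := by
    apply mul_le_of_le_one_right (hf0 t h1 h2)
    apply Real.exp_le_one_iff.2
    linarith
  have h5 : f τ * Real.exp (-(C / p)) ≤ f τ * Real.exp (-(C / p) * (2 * (T - τ) / τ) ^ p) := by
    apply mul_le_mul_of_nonneg_left _ (hf0 τ le_rfl (lt_of_le_of_lt h1 h2))
    apply Real.exp_le_exp.2
    have h6 : (2 * (T - τ) / τ) ^ p ≤ 1 := by
      apply Real.rpow_le_one _ _ hp.le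
      · have : 0 < T - τ := by linarith
        positivity
      · rw [div_le_one hτ]
        exact hz
    have h7 : C / p * (2 * (T - τ) / τ) ^ p ≤ C / p * 1 :=
      mul_le_mul_of_nonneg_left h6 (div_nonneg hC hp.le)
    linarith
  calc Real.exp (-(C / p)) * f τ = f τ * Real.exp (-(C / p)) := mul_comm _ _
    _ ≤ _ := h5
    _ ≤ _ := h3
    _ ≤ _ := h4

/-- the squared norm in coframe components -/
theorem ip_gOf (θ : MF) (x : HH) (v : Fin 3 → ℝ) :
    ip (gOf θ) x v v = ∑ a, (∑ i, θ x i a * v i) ^ 2 := by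
  simp only [ip, gOf, Matrix.mul_apply, Matrix.transpose_apply, Fin.sum_univ_three]
  ring

theorem frm_of_flow {I : Set ℝ} {A θ : ℝ → MF} (h : FFlow I A θ) {t : ℝ} (ht : t ∈ I) :
    Frm (A t) (θ t) :=
  ⟨h.inv t ht, fun a i => (h.flA a i).fam.sm t ht, fun i a => (h.flt i a).fam.sm t ht⟩

/-- quadratic form bound -/
theorem quad_bound (M : Fin 3 → Fin 3 → ℝ) (e : ℝ) (w : Fin 3 → ℝ) (he : ∀ i j, |M i j| ≤ e) :
    |∑ a, ∑ b, w a * w b * M a b| ≤ 3 * e * ∑ a, w a ^ 2 := by
  have he0 : 0 ≤ e := (abs_nonneg _).trans (he 0 0)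
  have h1 : |∑ a, ∑ b, w a * w b * M a b| ≤ ∑ a, ∑ b, |w a| * |w b| * e := by
    refine (Finset.abs_sum_le_sum_abs _ _).trans (Finset.sum_le_sum fun a _ => ?_)
    refine (Finset.abs_sum_le_sum_abs _ _).trans (Finset.sum_le_sum fun b _ => ?_)
    rw [abs_mul, abs_mul]
    exact mul_le_mul_of_nonneg_left (he a b) (by positivity)
  refine h1.trans ?_
  have h2 : ∑ a, ∑ b, |w a| * |w b| * e = (|w 0| + |w 1| + |w 2|) ^ 2 * e := by
    simp only [Fin.sum_univ_three]
    ring
  rw [h2]
  have h3 : (|w 0| + |w 1| + |w 2|) ^ 2 ≤ 3 * ∑ a, w a ^ 2 := by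
    simp only [Fin.sum_univ_three]
    rw [← sq_abs (w 0), ← sq_abs (w 1), ← sq_abs (w 2)]
    nlinarith [sq_nonneg (|w 0| - |w 1|), sq_nonneg (|w 1| - |w 2|), sq_nonneg (|w 0| - |w 2|)]
  calc _ ≤ (3 * ∑ a, w a ^ 2) * e := mul_le_mul_of_nonneg_right h3 he0
    _ = _ := by ring

theorem veq (hDet : DetStmt) (hFrn : FrnStmt) : VeqStmt := by
  intro T κ τ A θ hκ hF hL
  have hτ : 0 < τ := hL.pos.1
  have hz : 2 * (T - τ) ≤ τ := hL.len.2
  have hp : 0 < 3 * κ ^ 2 / 2 := by positivity
  intro t ht1 ht2 x hx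
  have hI : ∀ r, τ ≤ r → r < T → r ∈ Set.Ico 0 T := fun r h1 h2 => ⟨hτ.le.trans h1, h2⟩
  refine ⟨?_, ?_⟩
  · -- volume density
    have key := grow T τ (3 * κ ^ 2 / 2) 2200 hτ hp (by norm_num) hz
      (fun r => Real.sqrt (gOf (θ r) x).det / ((4 * (T - r)) * Real.sqrt (4 * (T - r))))
      (fun r => (-2 * (sC (A r) (θ r) x - 3 / (4 * (T - r)))) *
        (Real.sqrt (gOf (θ r) x).det / ((4 * (T - r)) * Real.sqrt (4 * (T - r)))))
      ?_ ?_ ?_ t ht1 ht2
    · have he : (2200 : ℝ) / (3 * κ ^ 2 / 2) = 4400 / (3 * κ ^ 2) := by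
        field_simp
        norm_num
      rw [he] at key
      exact key
    · intro r h1 h2
      have : 0 < T - r := by linarith
      positivity
    · intro r h1 h2
      have hr : 0 < T - r := by linarith
      have hD := (hDet _ A θ hF r (hI r h1 h2) x hx).2
      have h4 : HasDerivAt (fun y : ℝ => 4 * (T - y)) (-4) r := by
        have := ((hasDerivAt_id r).const_sub T).const_mul 4
        exact this.congr_deriv (by ring)
      have h5 : HasDerivAt (fun y : ℝ => Real.sqrt (4 * (T - y)))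
          (-4 / (2 * Real.sqrt (4 * (T - r)))) r := h4.sqrt (by positivity)
      have h6 : HasDerivWithinAt (fun y : ℝ => 4 * (T - y) * Real.sqrt (4 * (T - y)))
          (-4 * Real.sqrt (4 * (T - r)) + 4 * (T - r) * (-4 / (2 * Real.sqrt (4 * (T - r)))))
          (Set.Ico 0 T) r := (h4.mul h5).hasDerivWithinAt (s := Set.Ico 0 T)
      have hs : 0 < Real.sqrt (4 * (T - r)) := Real.sqrt_pos.2 (by positivity)
      have hs2 : Real.sqrt (4 * (T - r)) ^ 2 = 4 * (T - r) := Real.sq_sqrt (by positivity)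
      have h7 := hD.div h6 (by positivity)
      refine h7.congr_deriv ?_
      clear h7 h6 h5 hD
      generalize Real.sqrt (4 * (T - r)) = q at *
      generalize Real.sqrt (gOf (θ r) x).det = V at *
      have hTr : T - r = q ^ 2 / 4 := by linarith
      rw [hTr]
      field_simp
      ring
    · intro r h1 h2
      have hr : 0 < T - r := by linarith
      have ha := (hL.aft r h1 h2 x hx).1
      apply mul_le_mul_of_nonneg_right _ (by positivity)
      have h8 := (abs_le.1 ha).1
      have : 2200 * ((2 * (T - r) / τ) ^ (3 * κ ^ 2 / 2) / (T - r))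
          = 2 * (1100 * (2 * (T - r) / τ) ^ (3 * κ ^ 2 / 2) / (T - r)) := by ring
      rw [this]
      linarith
  · intro v
    -- derivative of the squared norm
    have hder : ∀ r, τ ≤ r → r < T → HasDerivWithinAt
        (fun r => ip (gOf (θ r)) x v v / (4 * (T - r)))
        ((1 / (T - r) - 4 / 3 * sC (A r) (θ r) x) * (ip (gOf (θ r)) x v v / (4 * (T - r)))
          + 2 * (∑ a, ∑ b, (∑ i, θ r x i a * v i) * (∑ i, θ r x i b * v i) *
            (Nc (A r) (θ r) x a b - (if a = b then sC (A r) (θ r) x / 3 else 0)))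
              / (4 * (T - r)))
        (Set.Ico 0 T) r := by
      intro r h1 h2
      have hr : 0 < T - r := by linarith
      have hθ : ∀ i a, HasDerivWithinAt (fun y => θ y x i a)
          (-∑ b, θ r x i b * RicF (A r) (θ r) x b a) (Set.Ico 0 T) r := by
        intro i a
        have := (hF.flt i a).der [] x hx r (hI r h1 h2)
        exact this
      have hw : ∀ a, HasDerivWithinAt (fun y => ∑ i, θ y x i a * v i)
          (∑ i, (-∑ b, θ r x i b * RicF (A r) (θ r) x b a) * v i) (Set.Ico 0 T) r := by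
        intro a
        exact HasDerivWithinAt.fun_sum (u := Finset.univ) (fun i _ => (hθ i a).mul_const (v i))
      have hn : HasDerivWithinAt (fun y => ∑ a, (∑ i, θ y x i a * v i) ^ 2)
          (∑ a, 2 * (∑ i, θ r x i a * v i) *
            (∑ i, (-∑ b, θ r x i b * RicF (A r) (θ r) x b a) * v i)) (Set.Ico 0 T) r := by
        have := HasDerivWithinAt.fun_sum (u := Finset.univ) (fun a _ => (hw a).fun_pow 2)
        refine this.congr_deriv ?_
        apply Finset.sum_congr rfl
        intro a _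
        simp
      have h4 : HasDerivAt (fun y : ℝ => 4 * (T - y)) (-4) r := by
        have := ((hasDerivAt_id r).const_sub T).const_mul 4
        exact this.congr_deriv (by ring)
      have h7 := hn.div (h4.hasDerivWithinAt (s := Set.Ico 0 T)) (by positivity)
      have hR := (hFrn (A r) (θ r) (frm_of_flow hF (hI r h1 h2))).2.2.2.2.2.1 x hx
      simp only [ip_gOf]
      refine h7.congr_deriv ?_
      clear h7 h4 hn hw hθ
      simp only [hR]
      simp only [Fin.sum_univ_three, Fin.isValue, if_true, Fin.reduceEq, if_false]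
      field_simp
      ring
    have hC1 : (1500 : ℝ) / (3 * κ ^ 2 / 2) = 3000 / (3 * κ ^ 2) := by
      field_simp
      norm_num
    have hnn : ∀ r, r < T → 0 ≤ ip (gOf (θ r)) x v v / (4 * (T - r)) := by
      intro r h2
      have hr : 0 < T - r := by linarith
      rw [ip_gOf]
      positivity
    have habs : ∀ r, τ ≤ r → r < T →
        |(1 / (T - r) - 4 / 3 * sC (A r) (θ r) x) * (ip (gOf (θ r)) x v v / (4 * (T - r)))
          + 2 * (∑ a, ∑ b, (∑ i, θ r x i a * v i) * (∑ i, θ r x i b * v i) *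
            (Nc (A r) (θ r) x a b - (if a = b then sC (A r) (θ r) x / 3 else 0)))
              / (4 * (T - r))|
        ≤ 1500 * ((2 * (T - r) / τ) ^ (3 * κ ^ 2 / 2) / (T - r)) *
          (ip (gOf (θ r)) x v v / (4 * (T - r))) := by
      intro r h1 h2
      have hr : 0 < T - r := by linarith
      obtain ⟨ha, hb⟩ := hL.aft r h1 h2 x hx
      have hq := quad_bound (fun a b => Nc (A r) (θ r) x a b
        - (if a = b then sC (A r) (θ r) x / 3 else 0)) _ (fun a => ∑ i, θ r x i a * v i) hb
      rw [ip_gOf]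
      set S : ℝ := ∑ a, (∑ i, θ r x i a * v i) ^ 2 with hS
      have hS0 : 0 ≤ S := by positivity
      set z : ℝ := (2 * (T - r) / τ) ^ (3 * κ ^ 2 / 2) with hzdef
      have hz0 : 0 ≤ z := by
        rw [hzdef]
        positivity
      set B : ℝ := ∑ a, ∑ b, (∑ i, θ r x i a * v i) * (∑ i, θ r x i b * v i) *
            (Nc (A r) (θ r) x a b - (if a = b then sC (A r) (θ r) x / 3 else 0)) with hB
      have e1 : 1 / (T - r) - 4 / 3 * sC (A r) (θ r) x
          = -(4 / 3) * (sC (A r) (θ r) x - 3 / (4 * (T - r))) := by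
        field_simp
        ring
      have h9 : |1 / (T - r) - 4 / 3 * sC (A r) (θ r) x| ≤ 4 / 3 * (1100 * z / (T - r)) := by
        rw [e1, abs_mul]
        have : |(-(4 / 3) : ℝ)| = 4 / 3 := by norm_num
        rw [this]
        exact mul_le_mul_of_nonneg_left ha (by norm_num)
      have h10 : |2 * B / (4 * (T - r))| ≤ 2 * (3 * (z / (T - r)) * S) / (4 * (T - r)) := by
        rw [abs_div, abs_mul, abs_of_pos (show (0:ℝ) < 2 by norm_num),
          abs_of_pos (show (0:ℝ) < 4 * (T - r) by positivity)]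
        apply div_le_div_of_nonneg_right _ (by positivity)
        exact mul_le_mul_of_nonneg_left hq (by norm_num)
      have h11 : |(1 / (T - r) - 4 / 3 * sC (A r) (θ r) x) * (S / (4 * (T - r)))|
          ≤ 4 / 3 * (1100 * z / (T - r)) * (S / (4 * (T - r))) := by
        rw [abs_mul, abs_of_nonneg (show 0 ≤ S / (4 * (T - r)) by positivity)]
        exact mul_le_mul_of_nonneg_right h9 (by positivity)
      refine (abs_add_le _ _).trans ((add_le_add h11 h10).trans ?_)
      have e2 : 4 / 3 * (1100 * z / (T - r)) * (S / (4 * (T - r)))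
          + 2 * (3 * (z / (T - r)) * S) / (4 * (T - r))
          = (4400 / 3 + 6) * (z / (T - r)) * (S / (4 * (T - r))) := by
        field_simp
        ring
      rw [e2]
      have : 0 ≤ (z / (T - r)) * (S / (4 * (T - r))) := by positivity
      nlinarith
    constructor
    · have key := shrink T τ (3 * κ ^ 2 / 2) 1500 hτ hp (by norm_num) hz _ _
        (fun r _ h2 => hnn r h2) hder (fun r h1 h2 => (abs_le.1 (habs r h1 h2)).1) t ht1 ht2
      rw [hC1] at key
      exact key
    · have key := grow T τ (3 * κ ^ 2 / 2) 1500 hτ hp (by norm_num) hz _ _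
        (fun r _ h2 => hnn r h2) hder (fun r h1 h2 => (abs_le.1 (habs r h1 h2)).2) t ht1 ht2
      rw [hC1] at key
      exact key

end Pool.Agent.Helper12.RF
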